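import Pool.Agent.V11112.LS2

/-!
# MP_ca1982_an, Q1: yes

There is a compact subset of the unit square that meets every line meeting the unit square and all
of whose iterated sumsets are nowhere dense.
-/

namespace Pool.Agent.Results.MP_ca1982_an.AllSumsetsNowhereDense

open Set

/-- The unit square `[0,1]²`. -/
def unitSquare : Set (ℝ × ℝ) := {p | (0 ≤ p.1 ∧ p.1 ≤ 1) ∧ (0 ≤ p.2 ∧ p.2 ≤ 1)}

/-- The `ℓ`-fold sumset `K + ⋯ + K` (all sums of `ℓ` elements of `K`). -/
def sumset (ℓ : ℕ) (K : Set (ℝ × ℝ)) : Set (ℝ × ℝ) :=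
  {s | ∃ x : Fin ℓ → ℝ × ℝ, (∀ r, x r ∈ K) ∧ s = ∑ r, x r}

/-- The line through `P` with direction `w` (a line when `w ≠ 0`). -/
def line (P w : ℝ × ℝ) : Set (ℝ × ℝ) := {p | ∃ τ : ℝ, p = P + τ • w}

/-- **Positive answer to Q1.** There is a compact set `K` contained in the unit square which meets
every line of the plane that meets the unit square, and such that for every `ℓ ≥ 1` the `ℓ`-fold
sumset of `K` is compact, nowhere dense and has empty interior. -/
theorem result :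
    ∃ K : Set (ℝ × ℝ), IsCompact K ∧ K ⊆ unitSquare ∧
      (∀ P w : ℝ × ℝ, w ≠ 0 → (line P w ∩ unitSquare).Nonempty → (line P w ∩ K).Nonempty) ∧
      ∀ ℓ : ℕ, 1 ≤ ℓ → IsCompact (sumset ℓ K) ∧ IsNowhereDense (sumset ℓ K) ∧
        interior (sumset ℓ K) = ∅ := by
  have hsq : unitSquare = V11112.LS.Sq := by
    ext ⟨x, y⟩
    rw [V11112.LS.mem_Sq]
    rfl
  refine ⟨V11112.LS.K, V11112.LS.K_compact, ?_, ?_, ?_⟩
  · rw [hsq]
    exact V11112.LS.K_sub
  · rintro P w hw ⟨p, ⟨τ, rfl⟩, hp⟩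
    rw [hsq] at hp
    obtain ⟨σ, hσ⟩ := V11112.LS.K_line P w hw ⟨τ, hp⟩
    exact ⟨_, ⟨σ, rfl⟩, hσ⟩
  · intro ℓ _
    have hnd : IsNowhereDense (sumset ℓ V11112.LS.K) := V11112.LS.sumset_nowhereDense ℓ
    have hc : IsCompact (sumset ℓ V11112.LS.K) := by
      have h1 : IsCompact (Set.pi Set.univ fun _ : Fin ℓ => V11112.LS.K) :=
        isCompact_univ_pi fun _ => V11112.LS.K_compact
      have h2 : Continuous fun x : Fin ℓ → ℝ × ℝ => ∑ r, x r := by fun_prop
      have h3 : sumset ℓ V11112.LS.K =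
          (fun x : Fin ℓ → ℝ × ℝ => ∑ r, x r) '' Set.pi Set.univ fun _ => V11112.LS.K := by
        ext s
        constructor
        · rintro ⟨x, hx, rfl⟩
          exact ⟨x, fun r _ => hx r, rfl⟩
        · rintro ⟨x, hx, rfl⟩
          exact ⟨x, fun r => hx r (Set.mem_univ r), rfl⟩
      rw [h3]
      exact h1.image h2
    refine ⟨hc, hnd, ?_⟩
    have h4 : interior (closure (sumset ℓ V11112.LS.K)) = ∅ := hnd
    rwa [hc.isClosed.closure_eq] at h4

end Pool.Agent.Results.MP_ca1982_an.AllSumsetsNowhereDense
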